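import Pool.Agent.Results.MP_d4938b_nt.NormFormsCoprimeDegrees
import Pool.Agent.U513.AP.LogInt

/-!
# Norm forms of abelian fields of degree prime to the degree of the polynomial: rational points for all constants near the numerators
# and denominators of Diophantine approximations

Let `α ∈ ℝ ^ d` and consider all its approximations `(q, u_1, …, u_d)` with `|q α_i - γ_i - u_i| ≤ q ^ (-τ)`; for `d = 1`, `γ = 0`,
`τ = 1` these contain the denominators and numerators of all the convergents of the continued fraction of `α`, for `τ = 1 / d` all
the best simultaneous approximations, and for larger `τ` the very good approximations of the very well approximable `α`, which form a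
set of dimension `s = (d + 1) / (1 + τ) < d` and of infinite Hausdorff measure in this dimension (Jarník). Let
`K₁, …, K_r` be subfields of a cyclotomic field with class numbers prime to their degrees, which satisfy the conditions on the norms of
the starting result. We show that for all `α` outside of a set of Hausdorff measure ZERO in the dimension `s` and all integral
polynomials `f` of degree at least `2` prime to the degrees of the `Kᵢ`, in any number of variables: for ALL integers `k ≠ 0` at a
distance of at most `(log q) ^ W` from `g_0 + g q + h_1 u_1 + ⋯ + h_d u_d`, for every integral affine form with `(g, h) ≠ 0` and all these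
approximations with large `q`, the variety `N_{Kᵢ/ℚ}(zᵢ) = f(t) + k ≠ 0` has rational points, and they approximate the coordinates `t`
of its local points at the primes of any given finite set.

Proof. The theorem `NormFormsCoprimeDegrees` of this page in the starting library bounds the number of the exceptional `|k| ≤ X` by
`X / (log X) ^ U` for all `U`. The integral vectors `(q, u)` with `q ≈ X` and a value of the form near an exceptional number are
counted, and the sets of the `α` approximated by them, cubes of side `2 X ^ (- 1 - τ)`, are used as the covers in the definition of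
the Hausdorff measure (`U513/AP/Log`, `LogInt`). The numbers `q`, `u` have the density zero for a given `α`, so that the bound for the
number of exceptions alone does not say anything about them.
-/

set_option autoImplicit false

open Finset Filter MeasureTheory

namespace Pool.Agent.Results.MP_d4938b_nt.Approximations

open MvPolynomial NumberField Module
open Pool.Agent.Results.MP_d4938b_nt.NormFormsCoprimeDegrees (Approximation)

variable {L : Type} [Field L] [NumberField L] {r : ℕ}

/-- `(q, u)` is an approximation of `α` of exponent `τ` and shift `γ`: `|q α_i - γ_i - u_i| ≤ q ^ (-τ)` for all `i`. -/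
def Approx {d : ℕ} (τ : ℝ) (γ α : Fin d → ℝ) (q : ℕ) (u : Fin d → ℤ) : Prop :=
  ∀ i, |(q : ℝ) * α i - γ i - u i| ≤ (q : ℝ) ^ (-τ)

/-- All the integers `k ≠ 0` within `(log q) ^ W` of the values of the integral affine forms `g₀ + g q + ∑ h_i u_i`, `(g, h) ≠ 0`, at
all the approximations `(q, u)` of `α` of exponent `τ` and shift `γ` with large `q` have the property `G`, for every `W`. -/
def Near {d : ℕ} (τ : ℝ) (γ α : Fin d → ℝ) (G : ℤ → Prop) : Prop :=
  ∀ (W : ℕ) (g₀ g : ℤ) (h : Fin d → ℤ), ¬ (g = 0 ∧ h = 0) → ∀ᶠ q : ℕ in atTop, ∀ u : Fin d → ℤ, Approx τ γ α q u →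
    ∀ k : ℤ, k ≠ 0 → |(k : ℝ) - (g₀ + g * q + ∑ i, h i * u i : ℤ)| ≤ Real.log q ^ W → G k

/-- the data: a polynomial, the primes and the level -/
abbrev Data : Type := Σ s : ℕ, MvPolynomial (Fin s) ℤ × Finset Nat.Primes × ℕ

lemma countable_data : Countable Data := by
  have h : ∀ s : ℕ, Countable (MvPolynomial (Fin s) ℤ) := fun s => by
    rw [← Cardinal.mk_le_aleph0_iff]
    refine (MvPolynomial.cardinalMk_le_max).trans ?_
    simp
  infer_instance

/-- The conditions on the polynomial `f` and the fields: the degree of `f` is at least `2` and prime to the degrees of the fields, and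
it is odd or `-1` is a norm from all the fields. -/
def Suitable {s : ℕ} (K : Fin r → IntermediateField ℚ L) (f : MvPolynomial (Fin s) ℤ) : Prop :=
  2 ≤ f.totalDegree ∧ (∀ i, f.totalDegree.Coprime (finrank ℚ (K i))) ∧
    (Odd f.totalDegree ∨ ∀ i, ∃ x : K i, Algebra.norm ℚ x = -1)

/-- **Norm forms of coprime degrees near the approximations of almost all points.** Let `L` be the `m`-th cyclotomic field, `Kᵢ`
subfields with class numbers prime to their degrees, such that `-1` is a norm or all norms are nonnegative. For all `d`, `τ ≥ 0` and
`γ ∈ ℝ ^ d` there is a set `E` of Hausdorff measure zero in the dimension `(d + 1) / (1 + τ)` (of Lebesgue measure zero if `d τ ≥ 1`),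
such that for all `α ∉ E`, all `Suitable` integral polynomials `f`, all finite sets `T` of primes and all `N`, ALL the integers
`k ≠ 0` near the integral affine forms at the approximations of `α` (`Near`) have `Approximation K f T N k`. -/
theorem result (m : ℕ) [NeZero m] [IsCyclotomicExtension {m} ℚ L] (K : Fin r → IntermediateField ℚ L)
    (hclass : ∀ i, (classNumber (K i)).Coprime (finrank ℚ (K i)))
    (hnorm : ∀ i, (∃ x : K i, Algebra.norm ℚ x = -1) ∨ ∀ x : K i, 0 ≤ Algebra.norm ℚ x) :
    ∀ (d : ℕ) (τ : ℝ) (γ : Fin d → ℝ), 0 ≤ τ →
      ∃ E : Set (Fin d → ℝ), μH[((d : ℝ) + 1) / (1 + τ)] E = 0 ∧ (1 ≤ d * τ → volume E = 0) ∧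
        ∀ α, α ∉ E → ∀ (s : ℕ) (f : MvPolynomial (Fin s) ℤ), Suitable K f → ∀ (T : Finset Nat.Primes) (N : ℕ),
          Near τ γ α (Approximation K f T N) := by
  classical
  intro d τ γ hτ
  have := countable_data
  obtain ⟨E, e1, e2, e3⟩ := Pool.Agent.U513.AP.near_int
    (fun (i : Data) (k : ℤ) => Suitable K i.2.1 → Approximation K i.2.1 i.2.2.1 i.2.2.2 k) (by
    rintro ⟨s, f, T, N⟩
    by_cases hc : Suitable K f
    · intro U
      obtain ⟨X₀, h⟩ := NormFormsCoprimeDegrees.result m K hclass hnorm f hc.1 hc.2.1 hc.2.2 T N U
      refine ⟨X₀, fun X hX => le_trans (Nat.cast_le.2 ?_) (h X hX)⟩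
      rw [← Set.ncard_coe_finset]
      refine Set.ncard_le_ncard ?_ (Finset.finite_toSet _)
      rintro k ⟨hk1, hk2⟩
      rw [mem_coe, mem_filter, mem_Icc]
      exact ⟨abs_le.1 hk1, fun hcon => hk2 fun _ => hcon⟩
    · exact Pool.Agent.U513.AP.FewInt.of_true fun k h1 => absurd h1 hc) hτ γ
  refine ⟨E, e1, e2, fun α hα s f hf T N W g₀ g h hgh => ?_⟩
  filter_upwards [e3 α hα ⟨s, f, T, N⟩ W g₀ g h hgh] with q hq u hu k hk hle
  exact hq u hu k hk hle hf

end Pool.Agent.Results.MP_d4938b_nt.Approximations
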