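import Pool.Agent.U449.BV.O
import Pool.Agent.Results.MP_d4938b_nt.NormFormsCoprimeDegrees

/-!
# Norm forms of coprime degrees: rational points near the values of polynomials on arbitrary dense sets

Let `p` be a prime and `f(x, y)` ANY polynomial modulo `p` of degree at most `d` with a monomial which contains both variables (for
example `f = x y`), let `A`, `B` be ARBITRARY sets of residues modulo `p`, `g`, `h` ARBITRARY functions, and `1 ≤ W ≤ p`.
For all but `Θ |A| |B|` of the pairs `(a, b)` in `A × B`, where `Θ ^ 2 = C d e(p) (p / |A| + W p / |B|)`, `e(X) = 1 / (1 + log X) ^ U`, `U` arbitrary,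
ALL integers `k` with `|k|` at a distance of at most `W` from the least residue of `f(a, b) + g(a) + h(b)` are such that
`N_{Kᵢ/ℚ}(zᵢ) = F(t) + k` has rational points which approximate the local points at given primes.
So this holds for almost all pairs if `A`, `B` are dense and `W` is small in the same sense as the set of the exceptions is sparse.
More generally, this holds for all functions `F(a, b)` with few coincidences (`Rare`).

Since the sets and the functions `g` and `h` are arbitrary, the values have no arithmetic structure, and a value may be
taken by very many pairs. So the number of the exceptions (starting library) does not give the result directly. Proof: the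
inequality of Cauchy and Schwarz; for most pairs `a, a'` the difference `F(a, b) - F(a', b)` is small for few `b`
(`Pool.Agent.U449.BV`).
-/

set_option autoImplicit false

namespace Pool.Agent.Results.MP_d4938b_nt.MixedOnDenseSets

open NumberField Module
open Pool.Agent.U449.BV (Rare OnDense on_dense_int_pow residues)
open Pool.Agent.Results.MP_d4938b_nt.NormFormsCoprimeDegrees (Approximation)

variable {L : Type} [Field L] [NumberField L] {r n : ℕ}

/-- For ALL integers `k` with `||k| - v| ≤ W` the local points of `V_k` at the primes of `T` are approximated by rational points of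
`V_k` (for `T = ∅`: there are rational points). -/
def Near (K : Fin r → IntermediateField ℚ L) (F : MvPolynomial (Fin n) ℤ) (T : Finset Nat.Primes) (N : ℕ)
    (W v : ℝ) : Prop :=
  ∀ k : ℤ, |(|k| : ℝ) - v| ≤ W → Approximation K F T N k

/-- **Theorem.** Let `F` be an integral polynomial of degree at least `2`, and let the `Kᵢ` be abelian number fields
(subfields of the `m`-th cyclotomic field `L`) of class numbers prime to their degrees, such that `-1` is a norm or all norms
are nonnegative, of degrees prime to the degree of `F`, which is odd or `-1` is a norm from all `Kᵢ`. For all finite sets `T` of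
primes, all `N` and `U` the property `Near K F T N` holds for almost all values of functions of two
variables with few coincidences on arbitrary dense sets, with the density `1 / (1 + log X) ^ U` of exceptions (`OnDense`).
The least residues modulo `p` of `f(a, b) + g(a) + h(b)` are such a function, bounded by `X = p`, for all primes `p`, all
polynomials `f` modulo `p` with a monomial which contains both variables, arbitrary functions `g` and `h`, and arbitrary sets of
residues. -/
theorem result (m : ℕ) [NeZero m] [IsCyclotomicExtension {m} ℚ L] (K : Fin r → IntermediateField ℚ L)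
    (hclass : ∀ i, (classNumber (K i)).Coprime (finrank ℚ (K i)))
    (hnorm : ∀ i, (∃ x : K i, Algebra.norm ℚ x = -1) ∨ ∀ x : K i, 0 ≤ Algebra.norm ℚ x)
    (F : MvPolynomial (Fin n) ℤ) (hF : 2 ≤ F.totalDegree)
    (hcoprime : ∀ i, F.totalDegree.Coprime (finrank ℚ (K i)))
    (hodd : Odd F.totalDegree ∨ ∀ i, ∃ x : K i, Algebra.norm ℚ x = -1) :
    (∀ (T : Finset Nat.Primes) (N U : ℕ), OnDense (fun X => 1 / (1 + Real.log X) ^ U) (Near K F T N)) ∧
    ∀ (p : ℕ) [Fact p.Prime] (d : ℕ) (f : MvPolynomial (Fin 2) (ZMod p)), f.totalDegree ≤ d →
      (∃ m ∈ f.support, m 0 ≠ 0 ∧ m 1 ≠ 0) → ∀ (g h : ZMod p → ZMod p) (A B : Finset (ZMod p)),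
        Rare d A B (fun a b => (((MvPolynomial.eval ![a, b] f + g a + h b).val : ℕ) : ℝ)) := by
  classical
  refine ⟨fun T N U => ?_, residues⟩
  obtain ⟨X₀, h⟩ := NormFormsCoprimeDegrees.result m K hclass hnorm F hF hcoprime hodd T N U
  refine on_dense_int_pow (Good := Approximation K F T N) (U := U) ⟨X₀, fun x hx => ?_⟩
  refine le_of_eq_of_le ?_ (h x hx)
  congr 2 <;> (ext k; simp only [Finset.mem_filter])

end Pool.Agent.Results.MP_d4938b_nt.MixedOnDenseSets
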