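import Pool.Agent.U637.OP.Q2

/-!
# MP_d4938b_nt: the Hasse principle for 100% of the varieties `N_{Kᵢ/ℚ}(zᵢ) = bᵢ t (f(t) + k)`

Let `f` be any integral polynomial in one variable of degree `d ≥ 1`, let the `bᵢ` be any nonzero integers, and
let the `Kᵢ` be subfields of a cyclotomic field, of any degrees, with class numbers prime to their degrees, such
that `-1` is a norm (for example, if the degree is odd) or all norms are nonnegative. The varieties
`W_k : N_{Kᵢ/ℚ}(zᵢ) = bᵢ t (f(t) + k) ≠ 0`, `i < r`, are smooth and geometrically rational, so that their smooth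
projective models are geometrically, and separably, rationally connected. There are in general nonconstant
elements of the Brauer group of the smooth projective models: for instance, if `r = 1` and `K₁` is cyclic of a
prime degree not dividing `d + 1`, then the class `(χ, t)` is unramified, for a character `χ` which defines `K₁`.
For `r > 1` and different `bᵢ` there are in general also obstructions to the existence of local points. We show:

(1) the Hasse principle holds for 100% of the `W_k`: the number of the `|k| ≤ X` for which `W_k` has points over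
`ℝ` and over all the `ℚ_p`, but no rational point, is `o(X)`. So for 100% of the `k` the Brauer-Manin set of a
smooth projective model is empty only if there are no local points on `W_k`;

(2) if one single `W_k` has points everywhere locally then a positive proportion of the `W_k` has rational
points.

Proof. The starting theorem `MP_83e36b_nt.NormFormsWithBrauerClass` gives, for 100% of the `k`, rational points
near given local points at the primes of a finite set `T`, if they are of the level `N`, that is
`p ^ (-N) ≤ |t| ≤ p ^ N` and `|f(t) + k| ≥ p ^ (-N)` (`brT` of `R479/NF/Br5`). We show that for all but `ε` of the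
`k` all local points can be moved to points of level `N(ε)` such that `t (f(t) + k)` is multiplied by an `n`-th
power: near infinity by `t ↦ p ^ (n i) t`, and outside of a set of small density only one of the values
`t` and `f(t) + k` is small, `f'(t)` is not if it is the second, and this value can be multiplied by
`p ^ (-n i)` (`farV` and `nearV` of `U637/OP/P1`, a compactness argument for systems of polynomials; `densW` of
`Q1`). For (2) the local points of one `W_k` are moved to the `W_{k'}` with `k'` close to `k` at `T` and of the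
right sign (`Q2`). The case of `r = 1` and one polynomial `f(t) + k` without the factor `t` is
`MP_e426f4_ag.AbelianNormForms`.
-/

set_option autoImplicit false

namespace Pool.Agent.Results.MP_d4938b_nt.NormFormsWithBrauerClasses

open Finset Polynomial Filter Topology NumberField Module TensorProduct

instance (p : Nat.Primes) : Fact (p : ℕ).Prime := ⟨p.2⟩

variable {L : Type} [Field L] [NumberField L] {r : ℕ}

/-- The class number of the field `K` is prime to its degree, and `-1` is a norm or no negative number is a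
norm. -/
def Admissible (K : IntermediateField ℚ L) : Prop :=
  (classNumber K).Coprime (finrank ℚ K) ∧
    ((∃ x : K, Algebra.norm ℚ x = -1) ∨ ∀ x : K, 0 ≤ Algebra.norm ℚ x)

/-- The variety `W_k : N_{Kᵢ/ℚ}(zᵢ) = bᵢ t (f(t) + k) ≠ 0` has a point over the field `F`. The coordinates `zᵢ`
form an element of `F ⊗ Kᵢ`. -/
def HasPoint (K : Fin r → IntermediateField ℚ L) (f : ℤ[X]) (b : Fin r → ℤ) (k : ℤ) (F : Type) [Field F]
    [Algebra ℚ F] : Prop :=
  ∃ (t : F) (z : (i : Fin r) → F ⊗[ℚ] (K i)), t ≠ 0 ∧ aeval t f + (k : F) ≠ 0 ∧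
    ∀ i, Algebra.norm F (z i) = (b i : F) * (t * (aeval t f + (k : F)))

/-- `W_k` has points over the real and over all `p`-adic numbers. -/
def EverywhereLocally (K : Fin r → IntermediateField ℚ L) (f : ℤ[X]) (b : Fin r → ℤ) (k : ℤ) : Prop :=
  HasPoint K f b k ℝ ∧ ∀ p : Nat.Primes, HasPoint K f b k ℚ_[(p : ℕ)]

lemma hasPoint_iff (K : Fin r → IntermediateField ℚ L) (f : ℤ[X]) (b : Fin r → ℤ) (k : ℤ) (F : Type) [Field F]
    [Algebra ℚ F] : HasPoint K f b k F ↔ Pool.Agent.U637.OP.PtW K f b k F := by
  constructor
  · rintro ⟨t, z, h0, h1, h2⟩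
    exact ⟨t, h0, h1, fun i => ⟨z i, h2 i⟩⟩
  · rintro ⟨t, h0, h1, h2⟩
    choose z hz using h2
    exact ⟨t, z, h0, h1, hz⟩

open Classical in
/-- **The Hasse principle for 100% of the `W_k`.** Here `L` is the `m`-th cyclotomic field, and the `Kᵢ` are any
of its subfields. (1) The number of the `|k| ≤ X` such that `W_k` has points over `ℝ` and over all the `ℚ_p`, but
no rational point, is `o(X)`. (2) If one `W_k` has points over `ℝ` and over all the `ℚ_p` then the lower density
of the `k` for which `W_k` has a rational point is positive. -/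
theorem result (m : ℕ) [NeZero m] [IsCyclotomicExtension {m} ℚ L] (K : Fin r → IntermediateField ℚ L)
    (hK : ∀ i, Admissible (K i)) (f : ℤ[X]) (hf : 1 ≤ f.natDegree) (b : Fin r → ℤ) (hb : ∀ i, b i ≠ 0) :
    Tendsto (fun X : ℕ => (#{k ∈ Icc (-(X : ℤ)) X | EverywhereLocally K f b k ∧ ¬ HasPoint K f b k ℚ} : ℝ) / X)
      atTop (𝓝 0) ∧
    ((∃ k, EverywhereLocally K f b k) →
      ∃ γ : ℝ, 0 < γ ∧ ∀ᶠ X : ℕ in atTop, γ ≤ (#{k ∈ Icc (-(X : ℤ)) X | HasPoint K f b k ℚ} : ℝ) / X) := by
  refine ⟨?_, ?_⟩
  · rw [Metric.tendsto_atTop]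
    intro ε hε
    obtain ⟨X0, h⟩ := Pool.Agent.U637.OP.hpW m K (fun i => (hK i).1) (fun i => (hK i).2) f hf b hb (ε / 2) (by positivity)
    refine ⟨max X0 1, fun X hX => ?_⟩
    have hX1 : (1 : ℝ) ≤ X := by exact_mod_cast (le_max_right _ _).trans hX
    rw [Real.dist_eq, sub_zero, abs_of_nonneg (by positivity), div_lt_iff₀ (by linarith)]
    have h1 : {k ∈ Icc (-(X : ℤ)) X | EverywhereLocally K f b k ∧ ¬ HasPoint K f b k ℚ} ⊆
        {k ∈ Icc (-(X : ℤ)) X | Pool.Agent.U637.OP.PtW K f b k ℝ ∧
          (∀ p : Nat.Primes, Pool.Agent.U637.OP.PtW K f b k ℚ_[(p : ℕ)]) ∧ ¬ Pool.Agent.U637.OP.PtW K f b k ℚ} := by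
      intro k hk
      rw [mem_filter] at hk ⊢
      obtain ⟨h1, ⟨h2, h3⟩, h4⟩ := hk
      exact ⟨h1, (hasPoint_iff K f b k ℝ).1 h2, fun p => (hasPoint_iff K f b k _).1 (h3 p),
        fun h => h4 ((hasPoint_iff K f b k ℚ).2 h)⟩
    have h2 := (Nat.cast_le (α := ℝ)).2 (card_le_card h1)
    refine lt_of_le_of_lt (h2.trans (h X ((le_max_left _ _).trans hX))) ?_
    nlinarith
  · rintro ⟨k0, h1, h2⟩
    obtain ⟨γ, hγ, X0, h⟩ := Pool.Agent.U637.OP.posW m K (fun i => (hK i).1) (fun i => (hK i).2) f hf b hb k0
      ((hasPoint_iff K f b k0 ℝ).1 h1) (fun p => (hasPoint_iff K f b k0 _).1 (h2 p))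
    refine ⟨γ, hγ, ?_⟩
    filter_upwards [eventually_ge_atTop (max X0 1)] with X hX
    have h3 := h X ((le_max_left _ _).trans hX)
    have hX1 : (1 : ℝ) ≤ X := by exact_mod_cast (le_max_right _ _).trans hX
    rw [le_div_iff₀ (by linarith)]
    refine h3.trans ?_
    have h5 : {k ∈ Icc (-(X : ℤ)) X | Pool.Agent.U637.OP.PtW K f b k ℚ} ⊆ {k ∈ Icc (-(X : ℤ)) X | HasPoint K f b k ℚ} := by
      intro k hk
      rw [mem_filter] at hk ⊢
      exact ⟨hk.1, (hasPoint_iff K f b k ℚ).2 hk.2⟩
    exact_mod_cast card_le_card h5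

end Pool.Agent.Results.MP_d4938b_nt.NormFormsWithBrauerClasses
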