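import Mathlib
import Pool.Agent.U424.DQ.AllP

/-!
# The Hasse principle for 100% of the conic and quadric bundles over the projective line whose
# coefficients are products of forms, and for their fibre products (helper424 and co-authors)

Let `r ≥ 0`, `m_i ≥ 3` for `i < r`, and let `ν_{i,l} ≥ 0`, `σ_{i,l} = ± 1` for `i < r`, `l < m_i`, such that
for every `i` at least two of the `ν_{i,l}` are positive. Let `F_{i,l,j}`, `j < ν_{i,l}`, be binary forms with
integral coefficients of degrees `e_{i,l,j} + 1 ≥ 1`, such that for fixed `i` the degrees of the products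
`A_{i,l} = σ_{i,l} ∏_j F_{i,l,j}` have the same parity. Let `X_F` be a smooth projective model of the fibre
product over `ℙ¹` of the `r` bundles of quadrics

  `A_{i,0}(x, y) u_{i,0}² + ⋯ + A_{i,m_i-1}(x, y) u_{i,m_i-1}² = 0`, `i < r`.

For `r = 1`, `m_0 = 3` this is the conic bundle

  `± ∏ F_{0,j}(x, y) u² ± ∏ F_{1,j}(x, y) v² ± ∏ F_{2,j}(x, y) w² = 0`

for which Skorobogatov and Sofos (Schinzel's hypothesis on average and rational points) showed that a
positive proportion has a rational point. Here it is shown that 100% of those with points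
everywhere locally have a rational point.

More precisely, we order the families `F` by the maximum `H` of the absolute values of their coefficients.
Let `U` be a nonempty open set of real numbers, `S` a finite set of prime numbers and `N` a natural
number. A positive proportion of the `X_F` has points over the real numbers over points `(1 : z)` with
`z ∈ U`, and points over all `ℚ_p`. Of these, 100% have the following property: for all `p`-adic points,
`p ∈ S`, there is a rational point over a point `(x : y)` of `ℙ¹` with `y / x ∈ U` and `(x, y)` close to the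
given `p`-adic base points modulo `p ^ N`. In particular they have rational points (take `S = ∅`).
(We only consider points over points of `ℙ¹` at which no form vanishes; by the implicit function theorem
`X_F` has local points if and only if it has such points.)

If the products have one factor each and `m_i = 3`, this is the theorem of helper718 of the starting
library (`Pool/Agent/N718/DC/All.lean`), whose proof is followed here.

Proof. By a second moment over all families there are sample points at which all the forms have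
values `± g P` with `g` bounded and with different primes `P`, with prescribed classes and
prescribed Legendre symbols `(P / P')`, for almost all families. For `m_i = 3` the conic over the sample
point is soluble at the prime `P` if the product of the symbols `(P' / P)`, over the `P'` in the two other
coefficients, has a given value. The vertex conditions for all `P` but one can be satisfied, because a
complete multipartite graph is connected; the last one follows from the product formula. For
`m_i ≥ 4` there are three unit coefficients at every prime not dividing the modulus, so there is no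
condition. Then one applies the theorem of Hasse and Minkowski.

Parts of the proof are due to helper571, helper465, helper186, helper863, helper784, helper882,
helper293, helper373, helper113, helper460, helper333, helper446 (`Pool/Agent/U424/DQ/All.lean`) and
helper696, helper750, helper2, helper95 (`Pool/Agent/U424/DQ/AllP.lean`).
-/

set_option autoImplicit false

namespace Pool.Agent.Results.MP_d4938b_nt.RandomProductCoefficients

open Finset Filter Topology

/-- The value at the point `(x, y)` of the binary form `∑ c_j x^(e + 1 - j) y^j` of degree `e + 1`. -/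
def value {e : ℕ} (c : Fin (e + 2) → ℤ) {K : Type} [CommRing K] (x y : K) : K :=
  ∑ j : Fin (e + 2), (c j : K) * x ^ (e + 1 - (j : ℕ)) * y ^ (j : ℕ)

/-- The index type of the forms `F_{i,l,j}`: the triples `⟨⟨i, l⟩, j⟩` with `i < r`, `l < m_i`, `j < ν_{i,l}`. -/
abbrev Index {r : ℕ} (m : Fin r → ℕ) (ν : (Σ i : Fin r, Fin (m i)) → ℕ) : Type :=
  Σ k : (Σ i : Fin r, Fin (m i)), Fin (ν k)

variable {r : ℕ} {m : Fin r → ℕ} {ν : (Σ i : Fin r, Fin (m i)) → ℕ} {e : Index m ν → ℕ}

/-- No form of the family `c` vanishes at `(x, y)`, and the fibre over `(x : y)` has a point over the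
field `K`: each of the quadrics `∑ σ_{i,l} ∏_j F_{i,l,j}(x, y) u_l² = 0` has a point. -/
def PointOver (σ : (Σ i : Fin r, Fin (m i)) → ℤ) (c : (k : Index m ν) → Fin (e k + 2) → ℤ)
    {K : Type} [Field K] (x y : K) : Prop :=
  (∀ k, value (c k) x y ≠ 0) ∧ ∀ i, ∃ u : Fin (m i) → K, u ≠ 0 ∧
    ∑ l, ((σ ⟨i, l⟩ : K) * ∏ j : Fin (ν ⟨i, l⟩), value (c ⟨⟨i, l⟩, j⟩) x y) * u l ^ 2 = 0

/-- There are a real point over some `(1 : z)`, `z ∈ U`, and a `p`-adic point for every prime `p`. -/
def LocallySoluble (σ : (Σ i : Fin r, Fin (m i)) → ℤ) (U : Set ℝ) (c : (k : Index m ν) → Fin (e k + 2) → ℤ) : Prop :=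
  (∃ z ∈ U, PointOver σ c (1 : ℝ) z) ∧ ∀ p : Nat.Primes, ∃ x y : ℚ_[(p : ℕ)], PointOver σ c x y

/-- For all `p`-adic points, `p ∈ S`, over the points `(X p : Y p)` with primitive coordinates, there is a
rational point over a point `(x : y)` with `y / x ∈ U` and integral coordinates which are close to
`(X p, Y p)` modulo `p ^ N` for all `p ∈ S`. -/
def Approximation (σ : (Σ i : Fin r, Fin (m i)) → ℤ) (U : Set ℝ) (S : Finset Nat.Primes) (N : ℕ)
    (c : (k : Index m ν) → Fin (e k + 2) → ℤ) : Prop :=
  ∀ X Y : (p : Nat.Primes) → ℚ_[(p : ℕ)], (∀ p ∈ S, max ‖X p‖ ‖Y p‖ = 1 ∧ PointOver σ c (X p) (Y p)) →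
    ∃ x y : ℤ, 0 < x ∧ (y : ℝ) / x ∈ U ∧ PointOver σ c (x : ℚ) (y : ℚ) ∧
      ∀ p ∈ S, ‖X p - (x : ℚ_[(p : ℕ)])‖ ≤ (((p : ℕ) : ℝ) ^ N)⁻¹ ∧
        ‖Y p - (y : ℚ_[(p : ℕ)])‖ ≤ (((p : ℕ) : ℝ) ^ N)⁻¹

/-- The families of forms whose coefficients are integers of absolute value at most `H`. -/
noncomputable def families (e : Index m ν → ℕ) (H : ℕ) :
    Finset ((k : Index m ν) → Fin (e k + 2) → ℤ) :=
  Fintype.piFinset fun _ => Fintype.piFinset fun _ => Icc (-(H : ℤ)) H

lemma card_families (e : Index m ν → ℕ) (H : ℕ) :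
    ((families e H).card : ℝ) = ((2 * H + 1 : ℕ) : ℝ) ^ Pool.Agent.N718.DC.ncI e := by
  have h1 : ((Icc (-(H : ℤ)) H).card) = 2 * H + 1 := by
    rw [Int.card_Icc]
    omega
  unfold families Pool.Agent.N718.DC.ncI
  rw [Fintype.card_piFinset]
  simp only [Fintype.card_piFinset, h1, prod_const, card_univ, Fintype.card_fin]
  rw [← Finset.prod_pow_eq_pow_sum]
  push_cast
  rfl

open Pool.Agent.U424.DQ in
lemma loc_iff (hm : ∀ i, 3 ≤ m i) (σ : (Σ i : Fin r, Fin (m i)) → ℤ) (hσ : ∀ k, σ k = 1 ∨ σ k = -1)
    (he : ∀ i l l', (∑ j, (e ⟨⟨i, l⟩, j⟩ + 1)) % 2 = (∑ j, (e ⟨⟨i, l'⟩, j⟩ + 1)) % 2) (U : Set ℝ)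
    (c : (k : Index m ν) → Fin (e k + 2) → ℤ) :
    LocallySoluble σ U c ↔ LocG (typP hm σ hσ e he Pool.Agent.N546.PN.un3) U c := Iff.rfl

open Pool.Agent.U424.DQ in
lemma appr_iff (hm : ∀ i, 3 ≤ m i) (σ : (Σ i : Fin r, Fin (m i)) → ℤ) (hσ : ∀ k, σ k = 1 ∨ σ k = -1)
    (he : ∀ i l l', (∑ j, (e ⟨⟨i, l⟩, j⟩ + 1)) % 2 = (∑ j, (e ⟨⟨i, l'⟩, j⟩ + 1)) % 2) (U : Set ℝ)
    (S : Finset Nat.Primes) (N : ℕ) (c : (k : Index m ν) → Fin (e k + 2) → ℤ) :
    Approximation σ U S N c ↔ ApprG (typP hm σ hσ e he Pool.Agent.N546.PN.un3) U S N c := Iff.rfl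

open Classical in
/-- **The Hasse principle, with approximation of the base point, for 100% of the fibre products of
diagonal conic and quadric bundles over the projective line whose coefficients are products of
forms.** -/
theorem result (r : ℕ) (m : Fin r → ℕ) (hm : ∀ i, 3 ≤ m i) (ν : (Σ i : Fin r, Fin (m i)) → ℕ)
    (hν : ∀ i, ∃ l l', l ≠ l' ∧ 1 ≤ ν ⟨i, l⟩ ∧ 1 ≤ ν ⟨i, l'⟩) (σ : (Σ i : Fin r, Fin (m i)) → ℤ)
    (hσ : ∀ k, σ k = 1 ∨ σ k = -1) (e : Index m ν → ℕ)
    (he : ∀ i l l', (∑ j, (e ⟨⟨i, l⟩, j⟩ + 1)) % 2 = (∑ j, (e ⟨⟨i, l'⟩, j⟩ + 1)) % 2) (U : Set ℝ)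
    (hU : IsOpen U) (hne : U.Nonempty) (S : Finset Nat.Primes) (N : ℕ) :
    (∃ c₀ : ℝ, 0 < c₀ ∧ ∀ᶠ H : ℕ in atTop,
      c₀ * (families e H).card ≤ ({c ∈ families e H | LocallySoluble σ U c}.card : ℝ)) ∧
    Tendsto (fun H : ℕ =>
      ({c ∈ families e H | LocallySoluble σ U c ∧ Approximation σ U S N c}.card : ℝ) /
        ({c ∈ families e H | LocallySoluble σ U c}.card : ℝ)) atTop (𝓝 1) := by
  obtain ⟨hT1, hT2, hT3⟩ := Pool.Agent.U424.DQ.typp r m ν hm σ hσ hν e he
    Pool.Agent.N546.PN.un3 _ (Fintype.equivFin _)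
  obtain ⟨c₀, hc₀, H₀, hpos⟩ := Pool.Agent.U424.DQ.mainbg _ _ _ e _ hT1 hT2 hT3 U hU hne
  have hA := Pool.Agent.U424.DQ.mainag _ _ _ e _ hT1 U hU S N
  have hpos' : ∀ H : ℕ, H₀ ≤ H →
      c₀ * (families e H).card ≤ ({c ∈ families e H | LocallySoluble σ U c}.card : ℝ) := by
    intro H hH
    rw [card_families]
    refine (hpos H hH).trans ?_
    rw [Nat.cast_le]
    apply Finset.card_le_card
    intro c hc
    rw [Finset.mem_filter] at hc ⊢
    exact ⟨hc.1, (loc_iff hm σ hσ he U c).2 hc.2⟩
  refine ⟨⟨c₀, hc₀, eventually_atTop.2 ⟨H₀, hpos'⟩⟩, ?_⟩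
  rw [Metric.tendsto_atTop]
  intro ε hε
  obtain ⟨H₁, hH₁⟩ := hA (c₀ * (ε / 2)) (by positivity)
  refine ⟨max H₀ H₁, fun H hH => ?_⟩
  have h1 := hpos' H ((le_max_left _ _).trans hH)
  have h2 : ({c ∈ families e H | LocallySoluble σ U c ∧ ¬ Approximation σ U S N c}.card : ℝ) ≤
      c₀ * (ε / 2) * (families e H).card := by
    rw [card_families]
    refine le_trans ?_ (hH₁ H ((le_max_right _ _).trans hH))
    rw [Nat.cast_le]
    apply Finset.card_le_card
    intro c hc
    rw [Finset.mem_filter] at hc ⊢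
    exact ⟨hc.1, (loc_iff hm σ hσ he U c).1 hc.2.1, fun h => hc.2.2 ((appr_iff hm σ hσ he U S N c).2 h)⟩
  have hF : (0 : ℝ) < (families e H).card := by
    rw [card_families]
    positivity
  have hL : (0 : ℝ) < ({c ∈ families e H | LocallySoluble σ U c}.card : ℝ) :=
    lt_of_lt_of_le (by positivity) h1
  have hsplit : ({c ∈ families e H | LocallySoluble σ U c}.card : ℝ) =
      ({c ∈ families e H | LocallySoluble σ U c ∧ Approximation σ U S N c}.card : ℝ) +
        ({c ∈ families e H | LocallySoluble σ U c ∧ ¬ Approximation σ U S N c}.card : ℝ) := by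
    rw [← Nat.cast_add, Nat.cast_inj, ← Finset.filter_filter, ← Finset.filter_filter]
    exact (Finset.card_filter_add_card_filter_not (fun c => Approximation σ U S N c)).symm
  rw [Real.dist_eq, abs_sub_comm, abs_of_nonneg]
  · rw [sub_lt_comm, lt_div_iff₀ hL]
    have h3 : c₀ * (ε / 2) * (families e H).card ≤
        (ε / 2) * ({c ∈ families e H | LocallySoluble σ U c}.card : ℝ) := by
      nlinarith
    nlinarith
  · rw [sub_nonneg, div_le_one hL, hsplit]
    have : (0 : ℝ) ≤ ({c ∈ families e H | LocallySoluble σ U c ∧ ¬ Approximation σ U S N c}.card : ℝ) :=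
      Nat.cast_nonneg _
    linarith

end Pool.Agent.Results.MP_d4938b_nt.RandomProductCoefficients
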